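import Pool.Agent.Helper86.TC8.Stmts

/-! # Large girth cubic graphs, modules CNT0 and NBR: counting all paths, counting branches -/

set_option autoImplicit false

namespace Pool.Agent.Helper59.TC8

open Finset
open Pool.Agent.Helper86.TC8
open scoped Classical

variable {V : Type}

/-! ### CNT0 -/

theorem c0_fwd_inj (G : CG V) (β : Bool) : Function.Injective (fwd G β) := by
  have hb : ∀ x y, G.bw x = G.bw y → x = y := fun x y h => by
    have := congrArg G.fw h
    rwa [G.fw_bw, G.fw_bw] at this
  have hn : ∀ x y, G.nu x = G.nu y → x = y := fun x y h => by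
    have := congrArg G.nu h
    rwa [G.nu_nu, G.nu_nu] at this
  rintro ⟨s, x⟩ ⟨t, y⟩ h
  cases s <;> cases t <;> cases β <;>
    simp only [fwd, if_true, if_false, Bool.false_eq_true, Prod.mk.injEq, true_and, false_and,
      reduceCtorEq] at h
  · rw [hb x y h]
  · rw [hb x y h]
  · rw [hb x y h]
  · rw [hn x y (hb _ _ h)]

theorem c0_walk_inj (G : CG V) : ∀ l : List Bool, Function.Injective (walkF G l) := by
  intro l
  induction l with
  | nil => intro a b h; exact h
  | cons β l ih => intro a b h; exact c0_fwd_inj G β (ih h)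

theorem c0_bl_card : ∀ k : ℕ, (bl k).card = 2 ^ k := by
  intro k
  induction k with
  | zero => rfl
  | succ k ih =>
    rw [bl, card_union_of_disjoint, card_image_of_injective _ List.cons_injective,
      card_image_of_injective _ List.cons_injective, ih, pow_succ]
    · ring
    · rw [disjoint_left]
      intro a ha hb
      obtain ⟨x, _, rfl⟩ := mem_image.1 ha
      obtain ⟨y, _, hy⟩ := mem_image.1 hb
      simp at hy

theorem st_CNT0 : ST_CNT0 := by
  intro V _ G h k
  rw [← c0_bl_card k]
  refine card_bij (fun q _ => q.2) ?_ ?_ ?_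
  · intro q hq
    exact (mem_product.1 (mem_filter.1 hq).1).2
  · intro q hq r hr hqr
    have h1 := (mem_filter.1 hq).2
    have h2 := (mem_filter.1 hr).2
    have h3 : q.1 = r.1 := c0_walk_inj G q.2 (by rw [h1]; rw [hqr]; exact h2.symm)
    exact Prod.ext h3 hqr
  · intro l hl
    have hs : Function.Surjective (walkF G l) :=
      Finite.surjective_of_injective (c0_walk_inj G l)
    obtain ⟨q, hq⟩ := hs h
    exact ⟨(q, l), mem_filter.2 ⟨mem_product.2 ⟨mem_univ _, hl⟩, hq⟩, rfl⟩

/-! ### NBR -/

theorem nbr_act1_inj (G : CG V) (c : L) : Function.Injective (act1 G c) := by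
  cases c
  · intro x y h
    have := congrArg G.nu h
    rwa [act1, G.nu_nu, G.nu_nu] at this
  · intro x y h
    have := congrArg G.fw h
    rwa [act1, G.fw_bw, G.fw_bw] at this
  · intro x y h
    have := congrArg G.bw h
    rwa [act1, G.bw_fw, G.bw_fw] at this

theorem nbr_card (G : CG V) : ∀ (d : ℕ) (a : L) (x : V), (br G d a x).card + 1 ≤ 2 ^ (d + 1) := by
  intro d
  induction d with
  | zero => intro a x; simp [br]
  | succ d ih =>
    intro a x
    have h1 := ih (k1 a) (act1 G (k1 a) x)
    have h2 := ih (k2 a) (act1 G (k2 a) x)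
    have h3 := card_insert_le x
      (br G d (k1 a) (act1 G (k1 a) x) ∪ br G d (k2 a) (act1 G (k2 a) x))
    have h4 := card_union_le (br G d (k1 a) (act1 G (k1 a) x)) (br G d (k2 a) (act1 G (k2 a) x))
    rw [br, pow_succ]
    omega

theorem nbr_pre [Fintype V] (G : CG V) (c : L) (S : Finset V) :
    (univ.filter fun x : V => act1 G c x ∈ S).card ≤ S.card := by
  refine card_le_card_of_injOn (act1 G c) ?_ (nbr_act1_inj G c).injOn
  intro x hx
  exact (mem_filter.1 hx).2

theorem nbr_dual [Fintype V] (G : CG V) (y : V) : ∀ (d : ℕ) (a : L),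
    (univ.filter fun x : V => y ∈ br G d a x).card + 1 ≤ 2 ^ (d + 1) := by
  intro d
  induction d with
  | zero =>
    intro a
    have h : (univ.filter fun x : V => y ∈ br G 0 a x) ⊆ {y} := by
      intro x hx
      have := (mem_filter.1 hx).2
      rw [br, mem_singleton] at this
      rw [mem_singleton, this]
    have := card_le_card h
    rw [card_singleton] at this
    omega
  | succ d ih =>
    intro a
    have h1 := ih (k1 a)
    have h2 := ih (k2 a)
    set S1 := univ.filter fun x : V => y ∈ br G d (k1 a) x with hS1
    set S2 := univ.filter fun x : V => y ∈ br G d (k2 a) x with hS2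
    have h : (univ.filter fun x : V => y ∈ br G (d + 1) a x) ⊆
        insert y ((univ.filter fun x : V => act1 G (k1 a) x ∈ S1) ∪
          (univ.filter fun x : V => act1 G (k2 a) x ∈ S2)) := by
      intro x hx
      have hx := (mem_filter.1 hx).2
      rw [br, mem_insert, mem_union] at hx
      rcases hx with hx | hx | hx
      · rw [hx]; exact mem_insert_self _ _
      · refine mem_insert_of_mem (mem_union_left _ (mem_filter.2 ⟨mem_univ _, ?_⟩))
        exact mem_filter.2 ⟨mem_univ _, hx⟩
      · refine mem_insert_of_mem (mem_union_right _ (mem_filter.2 ⟨mem_univ _, ?_⟩))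
        exact mem_filter.2 ⟨mem_univ _, hx⟩
    have h3 := card_le_card h
    have h4 := card_insert_le y ((univ.filter fun x : V => act1 G (k1 a) x ∈ S1) ∪
          (univ.filter fun x : V => act1 G (k2 a) x ∈ S2))
    have h5 := card_union_le (univ.filter fun x : V => act1 G (k1 a) x ∈ S1)
          (univ.filter fun x : V => act1 G (k2 a) x ∈ S2)
    have h6 := nbr_pre G (k1 a) S1
    have h7 := nbr_pre G (k2 a) S2
    rw [pow_succ]
    omega

theorem st_NBR : ST_NBR := by
  intro V _ G R
  refine ⟨fun y => ?_, fun a x => ?_⟩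
  · have h : (univ.filter fun q : V × L => y ∈ br G R q.2 (act1 G q.2 q.1)) ⊆
        (univ : Finset L).biUnion fun a =>
          (univ.filter fun z : V => y ∈ br G R a (act1 G a z)).image fun z => (z, a) := by
      intro q hq
      have hq := (mem_filter.1 hq).2
      refine mem_biUnion.2 ⟨q.2, mem_univ _, mem_image.2 ⟨q.1, mem_filter.2 ⟨mem_univ _, hq⟩, rfl⟩⟩
    have h1 : ∀ a : L, (univ.filter fun z : V => y ∈ br G R a (act1 G a z)).card ≤ 2 ^ (R + 1) := by
      intro a
      have e := nbr_pre G a (univ.filter fun x : V => y ∈ br G R a x)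
      have e2 : (univ.filter fun z : V => y ∈ br G R a (act1 G a z)) =
          univ.filter fun x : V => act1 G a x ∈ (univ.filter fun x : V => y ∈ br G R a x) := by
        ext z
        simp only [mem_filter, mem_univ, true_and]
      rw [e2]
      have := nbr_dual G y R a
      omega
    have h2 : ((univ : Finset L).biUnion fun a =>
          (univ.filter fun z : V => y ∈ br G R a (act1 G a z)).image fun z => (z, a)).card
        ≤ (univ : Finset L).card * 2 ^ (R + 1) := by
      refine card_biUnion_le_card_mul _ _ _ fun a _ => ?_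
      exact card_image_le.trans (h1 a)
    have h3 : (univ : Finset L).card = 3 := rfl
    have h4 := card_le_card h
    have h5 : (2 : ℕ) ^ (R + 3) = 4 * 2 ^ (R + 1) := by ring
    rw [h3] at h2
    omega
  · have := nbr_card G R a x
    omega

end Pool.Agent.Helper59.TC8
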