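import Pool.Agent.Helper86.TC8.Stmts
import Pool.Agent.Helper5.BL.LLL

/-! # Large girth cubic graphs, module LLLA: local lemma with explored sets -/

set_option autoImplicit false

namespace Pool.Agent.Helper59.TC8

open Finset
open Pool.Agent.Helper86.TC8
open scoped Classical

/-- fair bits -/
noncomputable def lmu (ι : Type) : ι → Bool → ℝ := fun _ _ => 1 / 2

theorem lmu_isW (ι : Type) : Pool.Agent.Helper50.BL.IsW (lmu ι) := by
  refine ⟨fun _ _ => by norm_num [lmu], fun _ => by simp [lmu]⟩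

theorem lmu_pr {ι : Type} [Fintype ι] (A : (ι → Bool) → Prop) :
    Pool.Agent.Helper50.BL.Pr (lmu ι) A = pr A := by
  unfold Pool.Agent.Helper50.BL.Pr Pool.Agent.Helper50.BL.Ex pr
  have h1 : ∀ w : ι → Bool, (∏ v, lmu ι v (w v)) = (1 / 2 : ℝ) ^ Fintype.card ι := by
    intro w
    simp [lmu, Finset.prod_const]
  simp only [h1]
  rw [← Finset.mul_sum, Finset.sum_boole]
  rw [one_div, inv_pow, div_eq_inv_mul]

theorem pr_nonneg' {ι : Type} [Fintype ι] (A : (ι → Bool) → Prop) : 0 ≤ pr A := by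
  unfold pr; positivity

theorem lmem {α : Type} [Fintype α] (A : α → Prop) (w : α) :
    w ∈ (univ.filter A) ↔ A w := by
  rw [mem_filter]
  exact ⟨fun h => h.2, fun h => ⟨mem_univ _, h⟩⟩

theorem st_LLLA : ST_LLLA := by
  intro ι J _ _ E X M hM hloc hX hsum
  have hM0 : (0 : ℝ) < M := by exact_mod_cast hM
  have hM1 : (1 : ℝ) ≤ M := by exact_mod_cast hM
  set Bad : J × Finset ι → (ι → Bool) → Prop := fun q ω => E q.1 ω ∧ X q.1 ω = q.2 with hBad
  set x : J × Finset ι → ℝ := fun q => pr (Bad q) * Real.exp 1 with hx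
  have he : Real.exp 1 < 3 := lt_trans Real.exp_one_lt_d9 (by norm_num)
  have he0 : (0 : ℝ) < Real.exp 1 := Real.exp_pos 1
  -- sum over the events which explore `v`
  have key : ∀ (v : ι) (F : Finset (J × Finset ι)),
      ∑ q ∈ F.filter (fun q => v ∈ q.2), pr (Bad q) ≤ 1 / (6 * M) := by
    intro v F
    have h1 : ∀ j : J, ∑ S : Finset ι, (if v ∈ S then pr (Bad (j, S)) else 0)
        = pr (fun ω => E j ω ∧ v ∈ X j ω) := by
      intro j
      unfold pr
      rw [← Finset.sum_filter, ← Finset.sum_div]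
      congr 1
      rw [← Nat.cast_sum]
      congr 1
      rw [← Finset.card_biUnion]
      · congr 1
        ext ω
        simp only [hBad, mem_biUnion, mem_filter, mem_univ, true_and]
        constructor
        · rintro ⟨S, hS, hE, rfl⟩
          exact ⟨hE, hS⟩
        · rintro ⟨hE, hS⟩
          exact ⟨X j ω, hS, hE, rfl⟩
      · intro S _ T _ hST
        rw [Function.onFun, disjoint_left]
        intro ω h1 h2
        apply hST
        have h3 := ((lmem _ _).1 h1).2
        have h4 := ((lmem _ _).1 h2).2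
        exact h3.symm.trans h4
    calc ∑ q ∈ F.filter (fun q => v ∈ q.2), pr (Bad q)
        ≤ ∑ q ∈ univ.filter (fun q : J × Finset ι => v ∈ q.2), pr (Bad q) := by
          refine sum_le_sum_of_subset_of_nonneg ?_ fun q _ _ => pr_nonneg' _
          exact filter_subset_filter _ (subset_univ _)
      _ = ∑ q : J × Finset ι, (if v ∈ q.2 then pr (Bad q) else 0) := by rw [sum_filter]
      _ = ∑ j, ∑ S : Finset ι, (if v ∈ S then pr (Bad (j, S)) else 0) := by
          rw [Fintype.sum_prod_type]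
      _ = ∑ j, pr (fun ω => E j ω ∧ v ∈ X j ω) := sum_congr rfl fun j _ => h1 j
      _ ≤ 1 / (6 * M) := hsum v
  have hempty : ∀ q : J × Finset ι, ¬ (q.2.card ≤ M ∧ q.2.Nonempty) → pr (Bad q) = 0 := by
    intro q hq
    have h0 : ∀ ω, ¬ Bad q ω := by
      intro ω hω
      apply hq
      have := hX q.1 ω hω.1
      rwa [hω.2] at this
    rw [← lmu_pr]
    exact Pool.Agent.Helper50.BL.Pr_false _ h0
  have hle : ∀ q : J × Finset ι, pr (Bad q) ≤ 1 / (6 * M) := by
    intro q
    by_cases hq : q.2.card ≤ M ∧ q.2.Nonempty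
    · obtain ⟨v, hv⟩ := hq.2
      refine le_trans ?_ (key v {q})
      have : ({q} : Finset (J × Finset ι)).filter (fun q => v ∈ q.2) = {q} := by
        rw [filter_singleton, if_pos hv]
      rw [this, sum_singleton]
    · rw [hempty q hq]
      positivity
  have hM6 : (1 : ℝ) / (6 * M) ≤ 1 / 6 := by
    apply one_div_le_one_div_of_le (by norm_num)
    linarith
  suffices hfin : ∃ w, ∀ i, ¬ Bad i w by
    obtain ⟨ω, hω⟩ := hfin
    exact ⟨ω, fun j hE => hω (j, X j ω) ⟨hE, rfl⟩⟩
  refine Pool.Agent.Helper50.BL.st_LLL ι Bool (lmu ι) (lmu_isW ι) (J × Finset ι)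
    (fun q => q.2) Bad x (1 / M) ?_ ?_ ?_ (by positivity) ?_ ?_
  · intro q w w' hw
    constructor
    · rintro ⟨h1, h2⟩
      have := hloc q.1 w w' h1 (fun i hi => hw i (by rw [h2] at hi; exact hi))
      exact ⟨this.1, by rw [this.2, h2]⟩
    · rintro ⟨h1, h2⟩
      have := hloc q.1 w' w h1 (fun i hi => (hw i (by rw [h2] at hi; exact hi)).symm)
      exact ⟨this.1, by rw [this.2, h2]⟩
  · intro q
    exact mul_nonneg (pr_nonneg' _) he0.le
  · intro q
    show pr (Bad q) * Real.exp 1 ≤ 1 / 2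
    have h1 := hle q
    have h2 := pr_nonneg' (Bad q)
    nlinarith
  · intro q
    show Pool.Agent.Helper50.BL.Pr (lmu ι) (Bad q) ≤ _
    rw [lmu_pr]
    show pr (Bad q) ≤ pr (Bad q) * Real.exp 1 * Real.exp (-(1 / (M : ℝ) * (q.2.card : ℝ)))
    by_cases hq : q.2.card ≤ M ∧ q.2.Nonempty
    · rw [mul_assoc, ← Real.exp_add]
      have h1 : (0 : ℝ) ≤ 1 + -(1 / (M : ℝ) * (q.2.card : ℝ)) := by
        have h2 : (q.2.card : ℝ) ≤ M := by exact_mod_cast hq.1
        have h3 : 1 / (M : ℝ) * (q.2.card : ℝ) ≤ 1 := by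
          rw [one_div, inv_mul_le_iff₀ hM0]
          linarith
        linarith
      have h2 := Real.one_le_exp h1
      have h3 := pr_nonneg' (Bad q)
      nlinarith
    · rw [hempty q hq]
      simp
  · intro v F
    show ∑ q ∈ F.filter (fun q => v ∈ q.2), pr (Bad q) * Real.exp 1 ≤ 1 / (M : ℝ) / 2
    rw [← Finset.sum_mul]
    have h1 := key v F
    have h2 : (0 : ℝ) ≤ 1 / (6 * M) := by positivity
    have h3 : 1 / (6 * (M : ℝ)) * Real.exp 1 ≤ 1 / (6 * M) * 3 :=
      mul_le_mul_of_nonneg_left he.le h2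
    have h4 : 1 / (6 * (M : ℝ)) * 3 = 1 / M / 2 := by
      field_simp
      norm_num
    calc _ ≤ 1 / (6 * (M : ℝ)) * Real.exp 1 := mul_le_mul_of_nonneg_right h1 he0.le
      _ ≤ _ := by rw [← h4]; exact h3

end Pool.Agent.Helper59.TC8
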