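import Pool.Agent.Helper86.TC8.Stmts

/-! # Large girth cubic graphs, module LOC: locality of the bad events -/

set_option autoImplicit false

namespace Pool.Agent.Helper59.TC8

open Finset
open Pool.Agent.Helper86.TC8
open scoped Classical

variable {V : Type}

/-- the data read at `x` determine side and status -/
theorem loc_rdV (C : Ctx V) {x : V} {ω ω' : Idx V → Bool} (h : ∀ i ∈ rdV C x, ω i = ω' i) :
    sd C (ph ω) x = sd C (ph ω') x ∧ PP C ω x = PP C ω' x := by
  have h1 : ω (none, (rep C x).1) = ω' (none, (rep C x).1) := h _ (by simp [rdV])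
  have h2 : ω (none, (rep C (C.G.bw x)).1) = ω' (none, (rep C (C.G.bw x)).1) :=
    h _ (by simp [rdV])
  have h3 : ω (none, (rep C (C.G.bw (C.G.nu x))).1) = ω' (none, (rep C (C.G.bw (C.G.nu x))).1) :=
    h _ (by simp [rdV])
  have e1 : sd C (ph ω) x = sd C (ph ω') x := by simp only [sd, ph, h1]
  have e2 : sd C (ph ω) (C.G.bw x) = sd C (ph ω') (C.G.bw x) := by simp only [sd, ph, h2]
  have e3 : sd C (ph ω) (C.G.bw (C.G.nu x)) = sd C (ph ω') (C.G.bw (C.G.nu x)) := by
    simp only [sd, ph, h3]
  refine ⟨e1, ?_⟩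
  simp only [PP, ps, e1, e2, e3]

theorem loc_step (G : CG V) (Z : V → Bool) {P P' : V → Bool} {h : WS V} (hP : P h.2 = P' h.2) :
    stepW G Z P h = stepW G Z P' h := by
  simp only [stepW, hP]

/-- everything read by a walker determines its walk -/
theorem loc_rdW (C : Ctx V) {ω ω' : Idx V → Bool} : ∀ (k : ℕ) (h : WS V),
    (∀ i ∈ rdW C (PP C ω) k h, ω i = ω' i) →
    rdW C (PP C ω') k h = rdW C (PP C ω) k h ∧
    (Stops C.G C.Z (PP C ω') k h ↔ Stops C.G C.Z (PP C ω) k h) ∧
    valW C.G C.Z (PP C ω') (sb ω') k h = valW C.G C.Z (PP C ω) (sb ω) k h := by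
  intro k
  induction k with
  | zero => intro h _; exact ⟨rfl, Iff.rfl, rfl⟩
  | succ k ih =>
    intro h hi
    have hx : ∀ i ∈ rdV C h.2, ω i = ω' i := fun i hi' => hi i (by
      rw [rdW]; exact mem_union_left _ hi')
    have hP : PP C ω' h.2 = PP C ω h.2 := (loc_rdV C hx).2.symm
    have hs : stepW C.G C.Z (PP C ω') h = stepW C.G C.Z (PP C ω) h := loc_step _ _ hP
    cases hc : stepW C.G C.Z (PP C ω) h with
    | inl h' =>
      have hs' : stepW C.G C.Z (PP C ω') h = .inl h' := by rw [hs, hc]
      have hu : ω (some h'.1, h'.2) = ω' (some h'.1, h'.2) := hi _ (by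
        rw [rdW, hc]; exact mem_union_right _ (mem_singleton_self _))
      refine ⟨by simp only [rdW, hc, hs'], by simp only [Stops, hc, hs'], ?_⟩
      simp only [valW, hc, hs', sb, hu]
    | inr h' =>
      have hs' : stepW C.G C.Z (PP C ω') h = .inr h' := by rw [hs, hc]
      obtain ⟨i1, i2, i3⟩ := ih h' (fun i hi' => hi i (by
        rw [rdW, hc]; exact mem_union_right _ hi'))
      refine ⟨by simp only [rdW, hc, hs', i1], by simp only [Stops, hc, hs', i2], ?_⟩
      simp only [valW, hc, hs', i3]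

theorem loc_mono (C : Ctx V) (P : V → Bool) : ∀ (k : ℕ) (h : WS V),
    rdW C P k h ⊆ rdW C P (k + 1) h := by
  intro k
  induction k with
  | zero => intro h; simp only [rdW]; exact empty_subset _
  | succ k ih =>
    intro h
    cases hc : stepW C.G C.Z P h with
    | inl h' =>
      have e1 : rdW C P (k + 1) h = rdV C h.2 ∪ {((some h'.1 : Option Bool), h'.2)} := by
        simp only [rdW, hc]
      have e2 : rdW C P (k + 1 + 1) h = rdV C h.2 ∪ {((some h'.1 : Option Bool), h'.2)} := by
        rw [rdW]; simp only [hc]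
      rw [e1, e2]
    | inr h' =>
      have e1 : rdW C P (k + 1) h = rdV C h.2 ∪ rdW C P k h' := by
        simp only [rdW, hc]
      have e2 : rdW C P (k + 1 + 1) h = rdV C h.2 ∪ rdW C P (k + 1) h' := by
        rw [rdW]; simp only [hc]
      rw [e1, e2]
      exact union_subset_union (Subset.refl _) (ih h')

theorem loc_rdV_card (C : Ctx V) (x : V) : (rdV C x).card ≤ 3 := card_le_three

theorem loc_card (C : Ctx V) (P : V → Bool) : ∀ (k : ℕ) (h : WS V),
    (rdW C P k h).card ≤ 3 * k + 1 := by
  intro k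
  induction k with
  | zero => intro h; simp [rdW]
  | succ k ih =>
    intro h
    have h3 := loc_rdV_card C h.2
    cases hc : stepW C.G C.Z P h with
    | inl h' =>
      have e1 : rdW C P (k + 1) h = rdV C h.2 ∪ {((some h'.1 : Option Bool), h'.2)} := by
        simp only [rdW, hc]
      rw [e1]
      have := card_union_le (rdV C h.2) {((some h'.1 : Option Bool), h'.2)}
      rw [card_singleton] at this
      omega
    | inr h' =>
      have e1 : rdW C P (k + 1) h = rdV C h.2 ∪ rdW C P k h' := by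
        simp only [rdW, hc]
      rw [e1]
      have := card_union_le (rdV C h.2) (rdW C P k h')
      have := ih h'
      omega

theorem loc_nonempty (C : Ctx V) (P : V → Bool) (k : ℕ) (h : WS V) :
    (rdW C P (k + 1) h).Nonempty :=
  ⟨(none, (rep C h.2).1), by rw [rdW]; exact mem_union_left _ (by simp [rdV])⟩

/-- the branch contains its root -/
theorem loc_root (G : CG V) (d : ℕ) (a : L) (x : V) : x ∈ br G d a x := by
  cases d with
  | zero => simp [br]
  | succ d => simp [br]

/-- the tree of states depends only on the states on the branch -/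
theorem loc_rd (G : CG V) {n1 n2 : V → St} : ∀ (d : ℕ) (a : L) (x : V),
    (∀ y ∈ br G d a x, n1 y = n2 y) → rd G n1 d a x = rd G n2 d a x := by
  intro d
  induction d with
  | zero => intro a x h; exact h x (by simp [br])
  | succ d ih =>
    intro a x h
    have h0 : n1 x = n2 x := h x (by simp [br])
    have h1 := ih (k1 a) (act1 G (k1 a) x) (fun y hy => h y (by
      rw [br]; exact mem_insert_of_mem (mem_union_left _ hy)))
    have h2 := ih (k2 a) (act1 G (k2 a) x) (fun y hy => h y (by
      rw [br]; exact mem_insert_of_mem (mem_union_right _ hy)))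
    simp only [rd, h0, h1, h2]

theorem loc_br_card (G : CG V) : ∀ (d : ℕ) (a : L) (x : V), (br G d a x).card + 1 ≤ 2 ^ (d + 1) := by
  intro d
  induction d with
  | zero => intro a x; simp [br]
  | succ d ih =>
    intro a x
    have h1 := ih (k1 a) (act1 G (k1 a) x)
    have h2 := ih (k2 a) (act1 G (k2 a) x)
    have h3 := card_insert_le x
      (br G d (k1 a) (act1 G (k1 a) x) ∪ br G d (k2 a) (act1 G (k2 a) x))
    have h4 := card_union_le (br G d (k1 a) (act1 G (k1 a) x)) (br G d (k2 a) (act1 G (k2 a) x))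
    rw [br, pow_succ]
    omega

theorem st_LOC : ST_LOC := by
  intro V _ C hLF
  refine ⟨?_, ?_, ?_, ?_⟩
  · intro h ω ω' hE hi
    obtain ⟨h1, h2, _⟩ := loc_rdW C C.LF h hi
    exact ⟨⟨hE.1, fun hs => hE.2 (h2.1 hs)⟩, h1⟩
  · intro R z a ω ω' hE hi
    have key : ∀ y ∈ br C.G R a (act1 C.G a z), ∀ t : Bool,
        ∀ i ∈ rdW C (PP C ω) (C.LF + 1) (t, y), ω i = ω' i := by
      intro y hy t i hi'
      refine hi i ?_
      rw [X3, mem_biUnion]
      refine ⟨y, hy, ?_⟩
      cases t with
      | false => exact mem_union_left _ hi'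
      | true => exact mem_union_right _ hi'
    have key2 : ∀ y ∈ br C.G R a (act1 C.G a z), ∀ t : Bool,
        rdW C (PP C ω') (C.LF + 1) (t, y) = rdW C (PP C ω) (C.LF + 1) (t, y) :=
      fun y hy t => (loc_rdW C _ _ (key y hy t)).1
    have key3 : ∀ y ∈ br C.G R a (act1 C.G a z), ∀ t : Bool,
        (Stops C.G C.Z (PP C ω') C.LF (t, y) ↔ Stops C.G C.Z (PP C ω) C.LF (t, y)) :=
      fun y hy t => (loc_rdW C _ _ (fun i hi' => key y hy t i (loc_mono C _ _ _ hi'))).2.1
    have key4 : ∀ y ∈ br C.G R a (act1 C.G a z), nat C ω y = nat C ω' y := by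
      intro y hy
      have hx : ∀ i ∈ rdV C y, ω i = ω' i := fun i hi' => key y hy false i (by
        rw [rdW]; exact mem_union_left _ hi')
      obtain ⟨e1, e2⟩ := loc_rdV C hx
      have e3 := (loc_rdW C _ _ (key y hy false)).2.2
      have e4 := (loc_rdW C _ _ (key y hy true)).2.2
      simp only [nat, e1, e2, e3, e4]
    refine ⟨⟨hE.1, ?_, ?_⟩, ?_⟩
    · intro y hy t
      exact (key3 y hy t).2 (hE.2.1 y hy t)
    · rw [← loc_rd C.G R a _ key4]
      exact hE.2.2
    · rw [X3, X3]
      refine biUnion_congr rfl fun y hy => ?_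
      rw [key2 y hy false, key2 y hy true]
  · intro h ω
    refine ⟨?_, loc_card C _ _ _⟩
    obtain ⟨k, hk⟩ : ∃ k, C.LF = k + 1 := ⟨C.LF - 1, by omega⟩
    rw [X2, hk]
    exact loc_nonempty C _ _ _
  · intro R z a ω
    refine ⟨?_, ?_⟩
    · obtain ⟨i, hi⟩ := loc_nonempty C (PP C ω) C.LF (false, act1 C.G a z)
      exact ⟨i, mem_biUnion.2 ⟨_, loc_root _ _ _ _, mem_union_left _ hi⟩⟩
    · have h1 : (X3 C R z a ω).card ≤ (br C.G R a (act1 C.G a z)).card * (2 * (3 * C.LF + 4)) := by
        rw [X3]
        refine card_biUnion_le_card_mul _ _ _ fun y _ => ?_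
        have h2 := card_union_le (rdW C (PP C ω) (C.LF + 1) (false, y))
          (rdW C (PP C ω) (C.LF + 1) (true, y))
        have h3 := loc_card C (PP C ω) (C.LF + 1) (false, y)
        have h4 := loc_card C (PP C ω) (C.LF + 1) (true, y)
        omega
      refine h1.trans ?_
      have h5 : (br C.G R a (act1 C.G a z)).card ≤ 2 ^ (R + 1) := by
        have := loc_br_card C.G R a (act1 C.G a z)
        omega
      calc (br C.G R a (act1 C.G a z)).card * (2 * (3 * C.LF + 4))
          ≤ 2 ^ (R + 1) * (2 * (3 * C.LF + 4)) := Nat.mul_le_mul_right _ h5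
        _ = 2 ^ (R + 2) * (3 * C.LF + 4) := by ring

end Pool.Agent.Helper59.TC8
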