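import Pool.Agent.Helper59.TC8.CNT0

/-! # Large girth cubic graphs, module NBR: see `CNT0.lean` (theorem `st_NBR`) -/
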